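import Pool.Agent.H47.GLA.UZ4
import Pool.Agent.H20.HKI.Leaf
import Pool.Agent.H63.HK.DS

/-!
# Board gla_modules, module UZ: unfolding
-/

set_option autoImplicit false

open NumberField NumberField.InfinitePlace NumberField.Units
  NumberField.Units.dirichletUnitTheorem MeasureTheory Set Filter Complex
open scoped nonZeroDivisors ENNReal

namespace Pool.Agent.H47.GLA

open Pool.Agent.H25.HK Pool.Agent.H23.LB Pool.Agent.H20.HKI
open Pool.Agent.H28.RC hiding cf gS T_H1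
open Pool.Agent.H19.RC (Par sumM)

section
open scoped Classical

variable {K : Type} [Field K] [NumberField K] {f : Ideal (𝓞 K)}

/-- the Mellin transform of the sum over one class, for fixed `z` -/
theorem sum_EZ (hAZ : T_AZ) (hCF : T_CF) (χ : HC K f) (M : FI K) (Y : Finset K) (hf : f ≠ ⊥)
    (hM : M ≠ 0) (hY : Rep K f M Y) (φ : ℝ) (hφ : |φ| < Real.pi / 2) (z : logSpace K) (s : ℂ)
    (hs : 1 < s.re) :
    ∑ r ∈ Y, cf χ M r * EZ K χ.S f M r φ z s =
      ((cv K ((f : FI K) * M) : ℝ) : ℂ) ^ s * ∫ τ : ℝ, cexp (s * τ) *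
        (tz K χ.S M (cf χ M) (φ * I) (yc K τ z) - tm χ M φ (yc K τ z) 0) := by
  have hfM : (f : FI K) * M ≠ 0 := by
    refine mul_ne_zero ?_ hM
    rwa [Ne, FractionalIdeal.coeIdeal_eq_zero]
  have hk : 0 < cv K ((f : FI K) * M) := Pool.Agent.H74.GLA.cv_pos b_DU _ hfM
  set k : ℝ := cv K ((f : FI K) * M) with hkdef
  set H : ℝ → ℂ := fun T => tz K χ.S M (cf χ M) (φ * I) (yc K (Real.log T) z) -
    tm χ M φ (yc K (Real.log T) z) 0 with hH
  have h1 : ∑ r ∈ Y, cf χ M r * EZ K χ.S f M r φ z s =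
      ∫ T in Ioi (0 : ℝ), H (k⁻¹ * T) * (T : ℂ) ^ (s - 1) := by
    have h2 : ∀ r ∈ Y, cf χ M r * EZ K χ.S f M r φ z s = ∫ T in Ioi (0 : ℝ),
        cf χ M r * ((W K χ.S f M r φ z T - d0 K χ.S f M r) * (T : ℂ) ^ (s - 1)) := by
      intro r hr
      rw [((hAZ K χ.S f M r φ hf hM (hY.1 r hr) hφ).1 z s hs).2, ← integral_const_mul]
    rw [Finset.sum_congr rfl h2, ← integral_finsetSum]
    · refine integral_congr_ae (ae_of_all _ fun T => ?_)
      simp only [hH]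
      have h3 := sum_W b_TH hCF χ M Y hf hM hY φ hφ z T
      have h4 : k⁻¹ * T = T / cv K ((f : FI K) * M) := by
        rw [← hkdef]
        field_simp
      rw [h4, ← h3, Finset.sum_mul]
      refine Finset.sum_congr rfl fun r _ => ?_
      ring
    · intro r hr
      exact (((hAZ K χ.S f M r φ hf hM (hY.1 r hr) hφ).1 z s hs).1).const_mul _
  have h5 : ∫ T in Ioi (0 : ℝ), H (k⁻¹ * T) * (T : ℂ) ^ (s - 1) =
      mellin (fun T => H (k⁻¹ * T)) s := by
    unfold mellin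
    refine integral_congr_ae (ae_of_all _ fun T => ?_)
    simp only [smul_eq_mul]
    ring
  rw [h1, h5, mellin_comp_mul_left H s (inv_pos.2 hk), Pool.Agent.H66.HK.mellin_exp, smul_eq_mul]
  congr 1
  · rw [Complex.ofReal_inv, Complex.inv_cpow _ _ (by
      rw [Complex.arg_ofReal_of_nonneg hk.le]
      exact Real.pi_pos.ne), Complex.cpow_neg, inv_inv]
  · refine integral_congr_ae (ae_of_all _ fun τ => ?_)
    simp only [hH, Real.log_exp]

theorem sum_class (hAZ : T_AZ) (hGZ : T_GZ) (hCF : T_CF) (hPU : T_PU) (χ : HC K f) (M : FI K)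
    (Y : Finset K) (hf : f ≠ ⊥) (hM : M ≠ 0) (hY : Rep K f M Y) (φ : ℝ)
    (hφ : |φ| < Real.pi / 2) (s : ℂ) (hs : 1 < s.re) :
    ∑ r ∈ Y, cf χ M r * ∫ z in Fd K, ec K χ.ν z * EZ K χ.S f M r φ z s =
      (cw K : ℂ) * ((dN K f : ℝ) : ℂ) ^ s * gS K χ.S χ.ν s *
        cexp (-(φ * (Module.finrank ℚ K * s) / 2) * I) *
        ∑' J : {I : Ideal (𝓞 K) // Pri K M I}, χ.ψ J.1 * (Ideal.absNorm J.1 : ℂ) ^ (-s) := by
  have hs0 : 0 < s.re := by linarith
  have hfM : (f : FI K) * M ≠ 0 := by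
    refine mul_ne_zero ?_ hM
    rwa [Ne, FractionalIdeal.coeIdeal_eq_zero]
  obtain ⟨X, hX, hX1, hXM, hXu⟩ := Pool.Agent.H19.RC.bi2 K M hM
  have hP : Par M X := ⟨hX, fun J => (hX1 J).1, hXM, hXu⟩
  have hMn : (0 : ℝ) < (FractionalIdeal.absNorm M : ℝ) := (b_DU K M hM).2.2.2.1
  have hnorm : ∀ (J : {I : Ideal (𝓞 K) // Pri K M I}) (w : ℂ),
      (((|Algebra.norm ℚ (X J)| : ℚ) : ℝ) : ℂ) ^ w =
        (Ideal.absNorm J.1 : ℂ) ^ w * ((FractionalIdeal.absNorm M : ℝ) : ℂ) ^ w := by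
    intro J w
    rw [(hX1 J).2, Complex.ofReal_mul, Complex.mul_cpow_ofReal_nonneg (by positivity) hMn.le]
    norm_num
  have hinj : Function.Injective (fun J : {I : Ideal (𝓞 K) // Pri K M I} =>
      (⟨J.1, J.2.1⟩ : {I : Ideal (𝓞 K) // I ≠ ⊥})) := by
    intro J J' h
    have h' : J.1 = J'.1 := by simpa using h
    exact Subtype.ext h'
  have hsum : Summable fun J : {I : Ideal (𝓞 K) // Pri K M I} =>
      ‖(((|Algebra.norm ℚ (X J)| : ℚ) : ℝ) : ℂ) ^ (-(s.re : ℂ))‖ := by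
    have h1 := (Pool.Agent.H63.HK.ds K (s.re : ℂ) (by simpa using hs)).1
    have h3 := h1.comp_injective hinj
    refine (h3.mul_right ‖((FractionalIdeal.absNorm M : ℝ) : ℂ) ^ (-(s.re : ℂ))‖).congr
      fun J => ?_
    rw [hnorm, norm_mul]
    rfl
  -- the sum over the residue classes
  have hE : ∀ r ∈ Y, Continuous (fun z : logSpace K => EZ K χ.S f M r φ z s) := by
    intro r hr
    have h1 := (hAZ K χ.S f M r φ hf hM (hY.1 r hr) hφ).2.1 s
    unfold EZ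
    fun_prop
  have hec := ((hPU K).2.2.2.2.1 χ.ν).1
  have h1 : ∑ r ∈ Y, cf χ M r * ∫ z in Fd K, ec K χ.ν z * EZ K χ.S f M r φ z s =
      ∫ z in Fd K, ec K χ.ν z * ∑ r ∈ Y, cf χ M r * EZ K χ.S f M r φ z s := by
    have h2 : ∀ r ∈ Y, cf χ M r * ∫ z in Fd K, ec K χ.ν z * EZ K χ.S f M r φ z s =
        ∫ z in Fd K, cf χ M r * (ec K χ.ν z * EZ K χ.S f M r φ z s) := fun r _ => by
      rw [← integral_const_mul]
    rw [Finset.sum_congr rfl h2, ← integral_finsetSum]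
    · refine integral_congr_ae (ae_of_all _ fun z => ?_)
      simp only
      rw [Finset.mul_sum]
      refine Finset.sum_congr rfl fun r _ => ?_
      ring
    · intro r hr
      have h3 := hE r hr
      refine Pool.Agent.H19.RC.Fd_int Pool.Agent.H66.HK.fd ?_
      fun_prop
  rw [h1]
  simp only [sum_EZ hAZ hCF χ M Y hf hM hY φ hφ _ s hs]
  have h4 : ∫ z in Fd K, ec K χ.ν z * (((cv K ((f : FI K) * M) : ℝ) : ℂ) ^ s *
      ∫ τ : ℝ, cexp (s * τ) *
        (tz K χ.S M (cf χ M) (φ * I) (yc K τ z) - tm χ M φ (yc K τ z) 0)) =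
      ((cv K ((f : FI K) * M) : ℝ) : ℂ) ^ s * ∫ z in Fd K, ec K χ.ν z *
        ∫ τ : ℝ, cexp (s * τ) *
        (tz K χ.S M (cf χ M) (φ * I) (yc K τ z) - tm χ M φ (yc K τ z) 0) := by
    rw [← integral_const_mul]
    refine integral_congr_ae (ae_of_all _ fun z => ?_)
    simp only
    ring
  rw [h4, class_int b_TH d_SM b_YC b_UI Pool.Agent.H66.HK.fd Pool.Agent.H41.HK.un d_ID d_GI hGZ
    hCF hPU χ M hf hM X hP φ hφ s hs0 hsum]
  -- the values
  have hval : ∀ J : {I : Ideal (𝓞 K) // Pri K M I},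
      aI χ M X φ J * ∫ p, Qx K χ.S χ.ν φ s (X J) p =
      (((2 : ℂ) ^ (nrRealPlaces K + nrComplexPlaces K))⁻¹ * gS K χ.S χ.ν s *
        cexp (-(φ * (Module.finrank ℚ K * s) / 2) * I) *
        ((FractionalIdeal.absNorm M : ℝ) : ℂ) ^ (-s)) *
        (χ.ψ J.1 * (Ideal.absNorm J.1 : ℂ) ^ (-s)) := by
    intro J
    have h5 : ∫ p, Qx K χ.S χ.ν φ s (X J) p =
        ((2 : ℂ) ^ (nrRealPlaces K + nrComplexPlaces K))⁻¹ * gS K χ.S χ.ν s *
        (((|Algebra.norm ℚ (X J)| : ℚ) : ℝ) : ℂ) ^ (-s) * ph χ.ν (X J) *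
        cexp (-(φ * (Module.finrank ℚ K * s + χ.S.card) / 2) * I) :=
      (hGZ K χ.S (X J) χ.ν φ s (hP.X0 J) χ.norm_zero hφ hs0).2
    have h6 : cexp ((φ * I) * χ.S.card / 2) *
        cexp (-(φ * (Module.finrank ℚ K * s + χ.S.card) / 2) * I) =
        cexp (-(φ * (Module.finrank ℚ K * s) / 2) * I) := by
      rw [← Complex.exp_add]
      congr 1
      ring
    have h7 : (starRingEnd ℂ) (ph χ.ν (X J)) * ph χ.ν (X J) = 1 := by
      rw [mul_comm, Complex.mul_conj, Complex.normSq_eq_norm_sq, (hPU K).2.2.2.2.2.2 χ.ν (X J)]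
      norm_num
    rw [h5, hnorm]
    unfold aI
    calc cexp ((φ * I) * χ.S.card / 2) * χ.ψ J.1 * (starRingEnd ℂ) (ph χ.ν (X J)) *
        (((2 : ℂ) ^ (nrRealPlaces K + nrComplexPlaces K))⁻¹ * gS K χ.S χ.ν s *
        ((Ideal.absNorm J.1 : ℂ) ^ (-s) * ((FractionalIdeal.absNorm M : ℝ) : ℂ) ^ (-s)) *
          ph χ.ν (X J) *
        cexp (-(φ * (Module.finrank ℚ K * s + χ.S.card) / 2) * I))
        = ((starRingEnd ℂ) (ph χ.ν (X J)) * ph χ.ν (X J)) *
          (cexp ((φ * I) * χ.S.card / 2) *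
          cexp (-(φ * (Module.finrank ℚ K * s + χ.S.card) / 2) * I)) *
          (((2 : ℂ) ^ (nrRealPlaces K + nrComplexPlaces K))⁻¹ * gS K χ.S χ.ν s *
          ((FractionalIdeal.absNorm M : ℝ) : ℂ) ^ (-s)) *
          (χ.ψ J.1 * (Ideal.absNorm J.1 : ℂ) ^ (-s)) := by ring
      _ = _ := by
        rw [h7, h6]
        ring
  have h8 : ((cv K ((f : FI K) * M) : ℝ) : ℂ) ^ s *
      ((FractionalIdeal.absNorm M : ℝ) : ℂ) ^ (-s) = ((dN K f : ℝ) : ℂ) ^ s := by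
    have h9 : cv K ((f : FI K) * M) = dN K f * (FractionalIdeal.absNorm M : ℝ) := by
      unfold cv dN Nf
      rw [map_mul, FractionalIdeal.coeIdeal_absNorm]
      push_cast
      ring
    have h10 : 0 ≤ dN K f := by
      unfold dN Nf
      positivity
    have h11 : ((FractionalIdeal.absNorm M : ℝ) : ℂ) ≠ 0 := by
      exact_mod_cast hMn.ne'
    rw [h9, Complex.ofReal_mul, Complex.mul_cpow_ofReal_nonneg h10 hMn.le, mul_assoc,
      ← Complex.cpow_add _ _ h11, add_neg_cancel, Complex.cpow_zero, mul_one]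
  simp only [hval]
  rw [tsum_mul_left, ← h8]
  unfold cw
  push_cast
  ring

end

/-- (UZ) unfolding. -/
theorem pf_UZ (hAZ : T_AZ) (hGZ : T_GZ) (hCF : T_CF) (hPU : T_PU) : T_UZ := by
  classical
  intro K _ _ f hf D χ φ hφ s hs
  have hsm := (Pool.Agent.H63.HK.ds K s hs).1
  have hψs : Summable (fun J : {I : Ideal (𝓞 K) // I ≠ ⊥} =>
      χ.ψ J.1 * (Ideal.absNorm J.1 : ℂ) ^ (-s)) := by
    refine Summable.of_norm_bounded hsm fun J => ?_
    rw [norm_mul]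
    exact mul_le_of_le_one_left (norm_nonneg _) (hc_le χ J.1)
  -- every ideal belongs to exactly one class
  let e : (Σ c : D.ι, {I : Ideal (𝓞 K) // Pri K (D.M c) I}) ≃ {I : Ideal (𝓞 K) // I ≠ ⊥} :=
    Equiv.ofBijective (fun q => ⟨q.2.1, q.2.2.1⟩) (by
      constructor
      · rintro ⟨c, J, hJ⟩ ⟨c', J', hJ'⟩ h
        have h1 : J = J' := by simpa using h
        subst h1
        have h2 : c = c' := (D.reps.2 J hJ.1).unique hJ hJ'
        subst h2
        rfl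
      · rintro ⟨J, hJ⟩
        obtain ⟨c, hc, -⟩ := D.reps.2 J hJ
        exact ⟨⟨c, J, hc⟩, rfl⟩)
  have hser : χ.series s = ∑ c, ∑' J : {I : Ideal (𝓞 K) // Pri K (D.M c) I},
      χ.ψ J.1 * (Ideal.absNorm J.1 : ℂ) ^ (-s) := by
    unfold HC.series
    rw [← e.tsum_eq]
    have h1 : Summable (fun q : (Σ c : D.ι, {I : Ideal (𝓞 K) // Pri K (D.M c) I}) =>
        χ.ψ (e q).1 * (Ideal.absNorm (e q).1 : ℂ) ^ (-s)) := e.summable_iff.2 hψs
    rw [h1.tsum_sigma, tsum_fintype]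
    rfl
  rw [hser, Finset.mul_sum]
  unfold Lam
  refine Finset.sum_congr rfl fun c _ => ?_
  have h2 := sum_class hAZ hGZ hCF hPU χ (D.M c) (D.X c) hf (D.reps.1 c) (D.rep c) φ hφ s hs
  exact h2

end Pool.Agent.H47.GLA
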