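import Pool.Agent.H23.LB.Targets
import Pool.Agent.H19.RC.MEB
import Pool.Agent.H74.GLA.WC

/-!
# Board gla_modules, module UZ, part 1: unfolding
-/

set_option autoImplicit false

open NumberField NumberField.InfinitePlace NumberField.Units
  NumberField.Units.dirichletUnitTheorem MeasureTheory Set Filter Complex
open scoped nonZeroDivisors ENNReal

namespace Pool.Agent.H47.GLA

open Pool.Agent.H25.HK Pool.Agent.H23.LB
open Pool.Agent.H28.RC hiding cf gS T_H1

/-- sums over units, complex version -/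
theorem tsum_units (K : Type) [Field K] [NumberField K] (h : logSpace K → ℂ)
    (hs : Summable fun u : (𝓞 K)ˣ => h (logEmbedding K (Additive.ofMul u))) :
    ∑' u : (𝓞 K)ˣ, h (logEmbedding K (Additive.ofMul u)) =
      (torsionOrder K : ℂ) * ∑' l : unitLattice K, h l := by
  let φ : (𝓞 K)ˣ → unitLattice K := fun u =>
    ⟨logEmbedding K (Additive.ofMul u), Submodule.mem_map_of_mem trivial⟩
  have key : ∀ l : unitLattice K, ∃ e : {u : (𝓞 K)ˣ // φ u = l} ≃ torsion K, True := by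
    rintro ⟨l, hl⟩
    obtain ⟨u0, _, hu0⟩ := hl
    obtain ⟨u0, rfl⟩ : ∃ u1 : (𝓞 K)ˣ, Additive.ofMul u1 = u0 := ⟨u0.toMul, rfl⟩
    have hu0' : logEmbedding K (Additive.ofMul u0) = l := hu0
    refine ⟨⟨fun u => ⟨u0⁻¹ * u.1, ?_⟩, fun t => ⟨u0 * t.1, ?_⟩, ?_, ?_⟩, trivial⟩
    · rw [← logEmbedding_eq_zero_iff]
      have h1 : logEmbedding K (Additive.ofMul u.1) = l := by
        have := u.2
        exact congrArg Subtype.val this
      rw [ofMul_mul, ofMul_inv, map_add, map_neg, h1, hu0']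
      simp
    · apply Subtype.ext
      change logEmbedding K (Additive.ofMul (u0 * t.1)) = l
      have h2 : logEmbedding K (Additive.ofMul t.1) = 0 := by
        rw [logEmbedding_eq_zero_iff]
        exact t.2
      rw [ofMul_mul, map_add, h2, hu0', add_zero]
    · intro u
      simp
    · intro t
      simp
  choose e _ using key
  have hs' : Summable (fun p : (Σ l : unitLattice K, {u : (𝓞 K)ˣ // φ u = l}) =>
      h (φ p.2.1)) :=
    (Equiv.sigmaFiberEquiv φ).summable_iff.2 hs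
  calc ∑' u : (𝓞 K)ˣ, h (logEmbedding K (Additive.ofMul u))
      = ∑' u : (𝓞 K)ˣ, h (φ u) := rfl
    _ = ∑' p : (Σ l : unitLattice K, {u : (𝓞 K)ˣ // φ u = l}), h (φ p.2.1) :=
        ((Equiv.sigmaFiberEquiv φ).tsum_eq (fun u => h (φ u))).symm
    _ = ∑' l : unitLattice K, ∑' u : {u : (𝓞 K)ˣ // φ u = l}, h (φ u.1) :=
        hs'.tsum_sigma
    _ = ∑' l : unitLattice K, (torsionOrder K : ℂ) * h l := by
        refine tsum_congr fun l => ?_
        have h1 : ∀ u : {u : (𝓞 K)ˣ // φ u = l}, h (φ u.1) = h l := fun u => by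
          rw [u.2]
        simp_rw [h1]
        have : Fintype (torsion K) := Fintype.ofFinite _
        rw [← (e l).symm.tsum_eq (fun _ => h l)]
        rw [tsum_fintype]
        simp only [Finset.sum_const, nsmul_eq_mul]
        congr 1
        rw [torsionOrder, Nat.card_eq_fintype_card, Finset.card_univ]
    _ = (torsionOrder K : ℂ) * ∑' l : unitLattice K, h l := tsum_mul_left

section
open scoped Classical

variable (K : Type) [Field K] [NumberField K]

/-- the measure on the strip -/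
noncomputable def mu : Measure (ℝ × logSpace K) :=
  (volume : Measure ℝ).prod (volume.restrict (Fd K))

/-- the logarithm of a unit -/
noncomputable def lg (u : (𝓞 K)ˣ) : logSpace K := logEmbedding K (Additive.ofMul u)

theorem unf_norm (hFD : T_FD) (hUN : T_UN) [Countable (𝓞 K)ˣ] (Q : ℝ × logSpace K → ℂ)
    (hQ : Continuous Q) :
    ∑' u : (𝓞 K)ˣ, ∫⁻ p, ‖Q (p.1, p.2 + lg K u)‖ₑ ∂(mu K) =
      (torsionOrder K : ℝ≥0∞) * ∫⁻ p, ‖Q p‖ₑ := by
  have hm : Measurable (fun p : ℝ × logSpace K => ‖Q p‖ₑ) := hQ.measurable.enorm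
  have hg : Measurable (fun z : logSpace K => ∫⁻ τ : ℝ, ‖Q (τ, z)‖ₑ) :=
    hm.lintegral_prod_left'
  have h1 : ∀ u : (𝓞 K)ˣ, ∫⁻ p, ‖Q (p.1, p.2 + lg K u)‖ₑ ∂(mu K) =
      ∫⁻ z in Fd K, ∫⁻ τ : ℝ, ‖Q (τ, z + lg K u)‖ₑ := by
    intro u
    unfold mu
    rw [lintegral_prod_symm']
    have : Continuous (fun p : ℝ × logSpace K => Q (p.1, p.2 + lg K u)) := by fun_prop
    exact this.measurable.enorm
  have h2 : ∫⁻ p : ℝ × logSpace K, ‖Q p‖ₑ = ∫⁻ z : logSpace K, ∫⁻ τ : ℝ, ‖Q (τ, z)‖ₑ := by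
    rw [Measure.volume_eq_prod, lintegral_prod_symm' _ hm]
  simp only [h1, h2]
  rw [← lintegral_tsum]
  · rw [← (hFD K).2.2.2.2.1 _ hg, ← lintegral_const_mul']
    · refine lintegral_congr fun z => ?_
      exact hUN K (fun l => ∫⁻ τ : ℝ, ‖Q (τ, z + l)‖ₑ)
    · exact ENNReal.natCast_ne_top _
  · intro u
    have : Measurable (fun z : logSpace K => z + lg K u) := by fun_prop
    exact (hg.comp this).aemeasurable

theorem unf_int (hFD : T_FD) (hUN : T_UN) [Countable (𝓞 K)ˣ] (Q : ℝ × logSpace K → ℂ)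
    (hQ : Continuous Q) (hQi : Integrable Q) :
    (∀ u : (𝓞 K)ˣ, Integrable (fun p : ℝ × logSpace K => Q (p.1, p.2 + lg K u)) (mu K)) ∧
    (Summable fun u : (𝓞 K)ˣ => ∫ p, Q (p.1, p.2 + lg K u) ∂(mu K)) ∧
    ∑' u : (𝓞 K)ˣ, ∫ p, Q (p.1, p.2 + lg K u) ∂(mu K) =
      (torsionOrder K : ℂ) * ∫ p, Q p := by
  have hn := unf_norm K hFD hUN Q hQ
  have hfin : (torsionOrder K : ℝ≥0∞) * ∫⁻ p, ‖Q p‖ₑ ≠ ∞ :=
    ENNReal.mul_ne_top (ENNReal.natCast_ne_top _) hQi.2.ne
  rw [← hn] at hfin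
  have hc : ∀ u : (𝓞 K)ˣ, Continuous (fun p : ℝ × logSpace K => Q (p.1, p.2 + lg K u)) :=
    fun u => by fun_prop
  have h1 : ∀ u : (𝓞 K)ˣ, Integrable (fun p : ℝ × logSpace K => Q (p.1, p.2 + lg K u)) (mu K) :=
    fun u => ⟨(hc u).aestronglyMeasurable, lt_top_iff_ne_top.2
      (ENNReal.ne_top_of_tsum_ne_top hfin u)⟩
  have hsR : Summable fun u : (𝓞 K)ˣ => (∫⁻ p, ‖Q (p.1, p.2 + lg K u)‖ₑ ∂(mu K)).toReal :=
    ENNReal.summable_toReal hfin
  have hle : ∀ u : (𝓞 K)ˣ, ‖∫ p, Q (p.1, p.2 + lg K u) ∂(mu K)‖ ≤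
      (∫⁻ p, ‖Q (p.1, p.2 + lg K u)‖ₑ ∂(mu K)).toReal := by
    intro u
    have h2 := norm_integral_le_integral_norm (μ := mu K)
      (fun p : ℝ × logSpace K => Q (p.1, p.2 + lg K u))
    refine h2.trans (le_of_eq ?_)
    rw [integral_norm_eq_lintegral_enorm (hc u).aestronglyMeasurable]
  have hs : Summable fun u : (𝓞 K)ˣ => ∫ p, Q (p.1, p.2 + lg K u) ∂(mu K) :=
    Summable.of_norm_bounded hsR hle
  refine ⟨h1, hs, ?_⟩
  -- the function of `z`
  set G : logSpace K → ℂ := fun z => ∫ τ : ℝ, Q (τ, z) with hG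
  have hGm : StronglyMeasurable G :=
    hQ.stronglyMeasurable.integral_prod_left'
  have hGi : Integrable G := by
    have h3 : Integrable Q ((volume : Measure ℝ).prod (volume : Measure (logSpace K))) := hQi
    exact h3.integral_prod_right
  have h4 : ∀ u : (𝓞 K)ˣ, ∫ p, Q (p.1, p.2 + lg K u) ∂(mu K) =
      ∫ z in Fd K, G (z + lg K u) := by
    intro u
    have h5 := h1 u
    unfold mu at h5 ⊢
    rw [integral_prod_symm _ h5]
  have h6 : ∫ p, Q p = ∫ z, G z := by
    have h3 : Integrable Q ((volume : Measure ℝ).prod (volume : Measure (logSpace K))) := hQi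
    rw [Measure.volume_eq_prod, integral_prod_symm _ h3]
  have h7 : ∑' u : (𝓞 K)ˣ, ∫ p, Q (p.1, p.2 + lg K u) ∂(mu K) =
      (torsionOrder K : ℂ) * ∑' l : unitLattice K, ∫ z in Fd K, G (z + l) := by
    simp only [h4]
    exact tsum_units K (fun l => ∫ z in Fd K, G (z + l)) (by
      refine hs.congr fun u => ?_
      rw [h4]
      rfl)
  rw [h7, h6]
  congr 1
  have h8 := (hFD K).2.2.2.2.2.1 G hGi
  rw [← h8.2]
  have hgm : Measurable (fun z : logSpace K => ‖G z‖ₑ) := hGm.measurable.enorm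
  rw [integral_tsum]
  · intro l
    have : Measurable (fun z : logSpace K => z + (l : logSpace K)) := by fun_prop
    exact (hGm.comp_measurable this).aestronglyMeasurable
  · have : Countable (unitLattice K) := inferInstance
    rw [← lintegral_tsum]
    · have h9 := (hFD K).2.2.2.2.1 (fun z => ‖G z‖ₑ) hgm
      rw [h9]
      exact hGi.2.ne
    · intro l
      have : Measurable (fun z : logSpace K => z + (l : logSpace K)) := by fun_prop
      exact (hgm.comp this).aemeasurable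

end

end Pool.Agent.H47.GLA
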