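import Pool.Agent.H47.GLA.UZ1

/-!
# Board gla_modules, module UZ, part 2: the Gamma integrand
-/

set_option autoImplicit false

open NumberField NumberField.InfinitePlace NumberField.Units
  NumberField.Units.dirichletUnitTheorem MeasureTheory Set Filter Complex
open scoped nonZeroDivisors ENNReal

namespace Pool.Agent.H47.GLA

open Pool.Agent.H25.HK Pool.Agent.H23.LB
open Pool.Agent.H28.RC hiding cf gS T_H1

section
open scoped Classical

variable (K : Type) [Field K] [NumberField K]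

/-- the integrand of the Gamma integral -/
noncomputable def Qx (S : Finset (RP K)) (ν : InfinitePlace K → ℝ) (φ : ℝ) (s : ℂ) (x : K)
    (p : ℝ × logSpace K) : ℂ :=
  ((|ws K S (yc K p.1 p.2) x| : ℝ) : ℂ) *
      cexp (-Real.pi * (cexp (φ * I) * ((qK K (yc K p.1 p.2) x : ℝ) : ℂ))) *
        (cexp (s * p.1) * ec K ν p.2)

theorem Qx_cont (hYC : T_YC) (hPU : T_PU) (S : Finset (RP K)) (ν : InfinitePlace K → ℝ) (φ : ℝ)
    (s : ℂ) (x : K) : Continuous (Qx K S ν φ s x) := by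
  have h1 := (hYC K).2.2.2.2.1
  have h2 := (Pool.Agent.H66.HK.continuous_qK K x).comp h1
  have h3 := (continuous_ws S x).comp h1
  have h4 : Continuous (fun p : ℝ × logSpace K => ec K ν p.2) :=
    ((hPU K).2.2.2.2.1 ν).1.comp continuous_snd
  have h5 : Continuous (fun p : ℝ × logSpace K => qK K (yc K p.1 p.2) x) := h2
  have h6 : Continuous (fun p : ℝ × logSpace K => ws K S (yc K p.1 p.2) x) := h3
  unfold Qx
  fun_prop

theorem Qx_norm (hPU : T_PU) (S : Finset (RP K)) (ν : InfinitePlace K → ℝ) (φ : ℝ)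
    (s : ℂ) (x : K) (p : ℝ × logSpace K) : ‖Qx K S ν φ s x p‖ =
      |ws K S (yc K p.1 p.2) x| * Real.exp (-Real.pi * (Real.cos φ * qK K (yc K p.1 p.2) x)) *
        Real.exp (s.re * p.1) := by
  unfold Qx
  rw [norm_mul, norm_mul, norm_mul, ((hPU K).2.2.2.2.1 ν).2, mul_one, Complex.norm_real,
    Real.norm_eq_abs, abs_abs, Complex.norm_exp, Complex.norm_exp]
  congr 2
  · congr 2
    have : (cexp (φ * I) * ((qK K (yc K p.1 p.2) x : ℝ) : ℂ)).re =
        Real.cos φ * qK K (yc K p.1 p.2) x := by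
      rw [Complex.re_mul_ofReal, Complex.exp_ofReal_mul_I_re]
    rw [← this, ← Complex.ofReal_neg, Complex.re_ofReal_mul]
  · simp

/-- the Gamma integrand without phases -/
noncomputable def Rx (S : Finset (RP K)) (σ : ℝ) (x : K) (p : ℝ × logSpace K) : ℂ :=
  ((|ws K S (yc K p.1 p.2) x| * Real.exp (-Real.pi * qK K (yc K p.1 p.2) x) : ℝ) : ℂ) *
        cexp ((σ : ℂ) * p.1)

theorem Rx_norm (S : Finset (RP K)) (σ : ℝ) (x : K) (p : ℝ × logSpace K) :
    Rx K S σ x p = ((‖Rx K S σ x p‖ : ℝ) : ℂ) ∧ ‖Rx K S σ x p‖ =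
      |ws K S (yc K p.1 p.2) x| * Real.exp (-Real.pi * qK K (yc K p.1 p.2) x) *
        Real.exp (σ * p.1) := by
  have h : ‖Rx K S σ x p‖ =
      |ws K S (yc K p.1 p.2) x| * Real.exp (-Real.pi * qK K (yc K p.1 p.2) x) *
        Real.exp (σ * p.1) := by
    unfold Rx
    rw [norm_mul, Complex.norm_real, Complex.norm_exp, Real.norm_of_nonneg (by positivity)]
    simp
  refine ⟨?_, h⟩
  rw [h]
  unfold Rx
  push_cast
  rfl

/-- a bound for the integral of the absolute value -/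
theorem Qx_bound (hYC : T_YC) (hPU : T_PU) (hGI : T_GIc) (S : Finset (RP K))
    (ν : InfinitePlace K → ℝ) (φ : ℝ) (hφ : |φ| < Real.pi / 2) (s : ℂ) (hs : 0 < s.re) :
    ∃ C : ℝ, 0 ≤ C ∧ ∀ x : K, x ≠ 0 → ∫⁻ p, ‖Qx K S ν φ s x p‖ₑ ≤
      ENNReal.ofReal (C * ‖(((|Algebra.norm ℚ x| : ℚ) : ℝ) : ℂ) ^ (-(s.re : ℂ))‖) := by
  have hcos : 0 < Real.cos φ := by
    have h1 := abs_lt.1 hφ
    exact Real.cos_pos_of_mem_Ioo ⟨by linarith [h1.1], h1.2⟩
  have hn : (0 : ℝ) < Module.finrank ℚ K := by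
    exact_mod_cast Module.finrank_pos
  set b : ℝ := (Module.finrank ℚ K : ℝ) / 2 * Real.log (Real.cos φ) with hb
  set C₁ : ℝ := Real.exp (-(S.card * Real.log (Real.cos φ) / 2) - s.re * b) with hC₁
  have hC₁0 : 0 < C₁ := Real.exp_pos _
  -- comparison
  have hcmp : ∀ (x : K) (p : ℝ × logSpace K),
      ‖Qx K S ν φ s x p‖ = C₁ * ‖Rx K S s.re x (p + (b, 0))‖ := by
    intro x p
    have hy : yc K (p.1 + b) p.2 = fun v => yc K p.1 p.2 v + Real.log (Real.cos φ) := by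
      funext v
      rw [(hYC K).2.2.2.1 (p.1 + b) p.2 v, (hYC K).2.2.2.1 p.1 p.2 v, hb]
      field_simp
      ring
    rw [Qx_norm K hPU, (Rx_norm K S s.re x (p + (b, 0))).2]
    have h1 : (p + ((b, 0) : ℝ × logSpace K)).1 = p.1 + b := rfl
    have h2 : (p + ((b, 0) : ℝ × logSpace K)).2 = p.2 := by
      change p.2 + 0 = p.2
      rw [add_zero]
    rw [h1, h2, hy, Pool.Agent.H74.GLA.qK_add, Pool.Agent.H74.GLA.abs_ws_add,
      Real.exp_log hcos]
    have h3 : C₁ * (Real.exp (S.card * Real.log (Real.cos φ) / 2) * Real.exp (s.re * (p.1 + b))) =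
        Real.exp (s.re * p.1) := by
      rw [hC₁, ← Real.exp_add, ← Real.exp_add]
      congr 1
      ring
    have h4 : C₁ * (Real.exp (S.card * Real.log (Real.cos φ) / 2) * |ws K S (yc K p.1 p.2) x| *
        Real.exp (-Real.pi * (Real.cos φ * qK K (yc K p.1 p.2) x)) *
          Real.exp (s.re * (p.1 + b))) =
        |ws K S (yc K p.1 p.2) x| *
        Real.exp (-Real.pi * (Real.cos φ * qK K (yc K p.1 p.2) x)) *
        (C₁ * (Real.exp (S.card * Real.log (Real.cos φ) / 2) * Real.exp (s.re * (p.1 + b)))) := by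
      ring
    rw [h4, h3]
  -- the integral of `Rx`
  refine ⟨C₁ * ‖((2 : ℂ) ^ (nrRealPlaces K + nrComplexPlaces K))⁻¹ *
        (Gammaℝ (s.re : ℂ) ^ (nrRealPlaces K - S.card) * Gammaℝ ((s.re : ℂ) + 1) ^ S.card *
          Gammaℂ (s.re : ℂ) ^ nrComplexPlaces K)‖, by positivity, fun x hx => ?_⟩
  obtain ⟨h3, h4⟩ := hGI K S x (s.re : ℂ) hx (by simpa using hs)
  have h3' : Integrable (Rx K S s.re x) := h3
  have h4' : ∫ p, Rx K S s.re x p = ((2 : ℂ) ^ (nrRealPlaces K + nrComplexPlaces K))⁻¹ *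
        (Gammaℝ (s.re : ℂ) ^ (nrRealPlaces K - S.card) * Gammaℝ ((s.re : ℂ) + 1) ^ S.card *
          Gammaℂ (s.re : ℂ) ^ nrComplexPlaces K) *
        (((|Algebra.norm ℚ x| : ℚ) : ℝ) : ℂ) ^ (-(s.re : ℂ)) := h4
  have h5 : ∫⁻ p : ℝ × logSpace K, ‖Rx K S s.re x p‖ₑ =
      ENNReal.ofReal (∫ p : ℝ × logSpace K, ‖Rx K S s.re x p‖) :=
    (ofReal_integral_norm_eq_lintegral_enorm h3').symm
  have h6 : ∫ p : ℝ × logSpace K, ‖Rx K S s.re x p‖ = ‖∫ p, Rx K S s.re x p‖ := by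
    have h7 : ∫ p, Rx K S s.re x p = ((∫ p, ‖Rx K S s.re x p‖ : ℝ) : ℂ) := by
      rw [← integral_complex_ofReal]
      exact integral_congr_ae (ae_of_all _ fun p => (Rx_norm K S s.re x p).1)
    rw [h7, Complex.norm_real, Real.norm_of_nonneg (integral_nonneg fun p => norm_nonneg _)]
  have h8 : ∫⁻ p, ‖Qx K S ν φ s x p‖ₑ =
      ENNReal.ofReal C₁ * ∫⁻ p : ℝ × logSpace K, ‖Rx K S s.re x p‖ₑ := by
    have h9 : ∀ p, ‖Qx K S ν φ s x p‖ₑ =
        ENNReal.ofReal C₁ * ‖Rx K S s.re x (p + (b, 0))‖ₑ := by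
      intro p
      rw [← ofReal_norm, hcmp, ENNReal.ofReal_mul hC₁0.le, ofReal_norm]
    simp only [h9]
    rw [lintegral_const_mul' _ _ ENNReal.ofReal_ne_top]
    congr 1
    have hinv : (volume : Measure (ℝ × logSpace K)).IsAddRightInvariant := by
      rw [Measure.volume_eq_prod]
      infer_instance
    exact lintegral_add_right_eq_self (fun p : ℝ × logSpace K => ‖Rx K S s.re x p‖ₑ) (b, 0)
  rw [h8, h5, h6, h4', ← ENNReal.ofReal_mul hC₁0.le]
  refine ENNReal.ofReal_le_ofReal (le_of_eq ?_)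
  rw [norm_mul, ← mul_assoc]

end

end Pool.Agent.H47.GLA
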