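import Pool.Agent.H47.GLA.UZ2

/-!
# Board gla_modules, module UZ, part 3: unfolding the theta series of one class
-/

set_option autoImplicit false

open NumberField NumberField.InfinitePlace NumberField.Units
  NumberField.Units.dirichletUnitTheorem MeasureTheory Set Filter Complex
open scoped nonZeroDivisors ENNReal

namespace Pool.Agent.H47.GLA

open Pool.Agent.H25.HK Pool.Agent.H23.LB
open Pool.Agent.H28.RC hiding cf gS T_H1
open Pool.Agent.H19.RC (Par sumM)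

section
open scoped Classical

variable {K : Type} [Field K] [NumberField K] {f : Ideal (𝓞 K)}

/-- a term of the theta series with the coefficients of the character -/
noncomputable def tm (χ : HC K f) (M : FI K) (φ : ℝ) (y : InfinitePlace K → ℝ) (x : K) : ℂ :=
  cf χ M x * ((ws K χ.S y x : ℝ) : ℂ) *
    (cexp ((φ * I) * χ.S.card / 2) * cexp (-Real.pi * (cexp (φ * I) * ((qK K y x : ℝ) : ℂ))))

theorem sum_ci (hCF : T_CF) (χ : HC K f) (M : FI K) (X : Finset K) (hf : f ≠ ⊥) (hM : M ≠ 0)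
    (hX : Rep K f M X) (x : K) (hx : x ∈ M) :
    ∑ r ∈ X, cf χ M r * ci K f M r x = cf χ M x := by
  obtain ⟨r0, ⟨hr0, hr1⟩, hr2⟩ := hX.2 x hx
  rw [Finset.sum_eq_single r0]
  · unfold ci
    rw [if_pos hr1, mul_one]
    have h1 := (hCF K f χ M hf hM).2.2.2.2.1 r0 (hX.1 r0 hr0) (x - r0) hr1
    rw [← h1]
    congr 1
    ring
  · intro r hr hne
    unfold ci
    rw [if_neg, mul_zero]
    intro h
    exact hne (hr2 r ⟨hr, h⟩)
  · intro h
    exact absurd hr0 h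

theorem tm_zero (χ : HC K f) (M : FI K) (φ : ℝ) (y : InfinitePlace K → ℝ) :
    tm χ M φ y 0 = if χ.S = ∅ then cf χ M 0 else 0 := by
  unfold tm
  split_ifs with h
  · rw [h, ws_empty]
    simp [qK]
  · rw [ws_zero _ h]
    simp

theorem sum_d0 (hCF : T_CF) (χ : HC K f) (M : FI K) (X : Finset K) (hf : f ≠ ⊥) (hM : M ≠ 0)
    (hX : Rep K f M X) (φ : ℝ) (y : InfinitePlace K → ℝ) :
    ∑ r ∈ X, cf χ M r * d0 K χ.S f M r = tm χ M φ y 0 := by
  rw [tm_zero]
  by_cases h : χ.S = ∅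
  · rw [if_pos h]
    rw [← sum_ci hCF χ M X hf hM hX 0 (zero_mem (M : Submodule (𝓞 K) K))]
    refine Finset.sum_congr rfl fun r _ => ?_
    congr 1
    unfold d0 ci
    have h1 : ((0 : K) - r ∈ (f : FI K) * M) ↔ r ∈ (f : FI K) * M := by
      rw [zero_sub]
      constructor
      · intro h2
        have h3 := neg_mem
          (s := (((f : FI K) * M : FI K) : Submodule (𝓞 K) K)) h2
        rw [neg_neg] at h3
        exact h3
      · intro h2
        exact neg_mem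
          (s := (((f : FI K) * M : FI K) : Submodule (𝓞 K) K)) h2
    simp only [h, true_and, h1]
  · rw [if_neg h]
    refine Finset.sum_eq_zero fun r _ => ?_
    unfold d0
    rw [if_neg (fun h1 => h h1.1), mul_zero]

theorem tm_summable (hTH : T_TH) (hCF : T_CF) (χ : HC K f) (M : FI K) (hf : f ≠ ⊥) (hM : M ≠ 0)
    (φ : ℝ) (hφ : |φ| < Real.pi / 2) (y : InfinitePlace K → ℝ) :
    Summable fun x : {x : K // x ∈ M} => tm χ M φ y x := by
  have hζ : |((φ : ℂ) * I).im| < Real.pi / 2 := by simpa using hφ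
  exact (Pool.Agent.H74.GLA.tz_summable hTH χ.S M hM (cf χ M) (φ * I) hζ
    (hCF K f χ M hf hM).2.1 y).of_norm

theorem sum_W (hTH : T_TH) (hCF : T_CF) (χ : HC K f) (M : FI K) (X : Finset K) (hf : f ≠ ⊥)
    (hM : M ≠ 0) (hX : Rep K f M X) (φ : ℝ) (hφ : |φ| < Real.pi / 2) (z : logSpace K) (T : ℝ) :
    ∑ r ∈ X, cf χ M r * (W K χ.S f M r φ z T - d0 K χ.S f M r) =
      tz K χ.S M (cf χ M) (φ * I) (yc K (Real.log (T / cv K ((f : FI K) * M))) z) -
        tm χ M φ (yc K (Real.log (T / cv K ((f : FI K) * M))) z) 0 := by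
  have hζ : |((φ : ℂ) * I).im| < Real.pi / 2 := by simpa using hφ
  set y := yc K (Real.log (T / cv K ((f : FI K) * M))) z with hy
  have h1 : ∀ r ∈ X, cf χ M r * (W K χ.S f M r φ z T - d0 K χ.S f M r) =
      cf χ M r * W K χ.S f M r φ z T - cf χ M r * d0 K χ.S f M r := fun r _ => by ring
  rw [Finset.sum_congr rfl h1, Finset.sum_sub_distrib, sum_d0 hCF χ M X hf hM hX φ y]
  congr 1
  have h2 : ∀ r ∈ X, cf χ M r * W K χ.S f M r φ z T =
      ∑' x : {x : K // x ∈ M}, cf χ M r * (ci K f M r x * ((ws K χ.S y x : ℝ) : ℂ) *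
        (cexp ((φ * I) * χ.S.card / 2) *
          cexp (-Real.pi * (cexp (φ * I) * ((qK K y x : ℝ) : ℂ))))) := by
    intro r _
    rw [tsum_mul_left]
    rfl
  rw [Finset.sum_congr rfl h2, ← Summable.tsum_finsetSum]
  · unfold tz
    refine tsum_congr fun x => ?_
    rw [← sum_ci hCF χ M X hf hM hX x x.2, Finset.sum_mul, Finset.sum_mul]
    refine Finset.sum_congr rfl fun r _ => ?_
    ring
  · intro r _
    refine Summable.mul_left _ ?_
    exact (Pool.Agent.H74.GLA.tz_summable hTH χ.S M hM (ci K f M r) (φ * I) hζ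
      (fun x _ => Pool.Agent.H74.GLA.norm_ci f M r x) y).of_norm

theorem abs_ws_unit (hYC : T_YC) (S : Finset (RP K)) (τ : ℝ) (z : logSpace K) (u : (𝓞 K)ˣ)
    (x : K) : |ws K S (yc K τ z) ((u : K) * x)| = |ws K S (yc K τ (z + lg K u)) x| := by
  rw [abs_ws, abs_ws]
  refine Finset.prod_congr rfl fun v _ => ?_
  have h1 : yc K τ (z + lg K u) v.1 = yc K τ z v.1 + 2 * Real.log (v.1 (u : K)) :=
    (hYC K).2.2.1 τ z u v.1
  have h2 : 0 < v.1 (u : K) := by
    rw [InfinitePlace.pos_iff]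
    simp
  rw [h1, add_div, Real.exp_add, mul_div_cancel_left₀ _ (two_ne_zero), Real.exp_log h2, map_mul]
  ring

/-- the constants of the classes -/
noncomputable def aI (χ : HC K f) (M : FI K) (X : {I : Ideal (𝓞 K) // Pri K M I} → K) (φ : ℝ)
    (J : {I : Ideal (𝓞 K) // Pri K M I}) : ℂ :=
  cexp ((φ * I) * χ.S.card / 2) * χ.ψ J.1 * (starRingEnd ℂ) (ph χ.ν (X J))

theorem tm_unit (hYC : T_YC) (hUI : T_UI) (hID : T_ID) (hCF : T_CF) (hPU : T_PU) (χ : HC K f)
    (M : FI K) (hf : f ≠ ⊥) (hM : M ≠ 0) (X : {I : Ideal (𝓞 K) // Pri K M I} → K)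
    (hP : Par M X) (φ : ℝ) (s : ℂ) (p : {I : Ideal (𝓞 K) // Pri K M I} × (𝓞 K)ˣ)
    (q : ℝ × logSpace K) :
    cexp (s * q.1) * ec K χ.ν q.2 * tm χ M φ (yc K q.1 q.2) ((p.2 : K) * X p.1) =
      aI χ M X φ p.1 * Qx K χ.S χ.ν φ s (X p.1) (q.1, q.2 + lg K p.2) := by
  have hne := hP.ne p
  have hu : (p.2 : K) ≠ 0 := by simp
  have hX0 := hP.X0 p.1
  have h1 := (hCF K f χ M hf hM).1 _ (hP.XM p.1 p.2) hne
  have h2 := hP.idl_eq hID hM p
  have h3 := (hPU K).2.2.2.2.2.1 χ.ν (p.2 : K) (X p.1) hu hX0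
  have h4 := (hPU K).2.2.2.1 χ.ν q.2 p.2
  have h4' : ec K χ.ν (q.2 + lg K p.2) = (starRingEnd ℂ) (ph χ.ν (p.2 : K)) * ec K χ.ν q.2 := h4
  have h5 : qK K (yc K q.1 (q.2 + lg K p.2)) (X p.1) = qK K (yc K q.1 q.2) ((p.2 : K) * X p.1) :=
    (hUI K M q.1 q.2 p.2).1 (X p.1)
  have h6 := abs_ws_unit hYC χ.S q.1 q.2 p.2 (X p.1)
  have h7 := sg_mul_ws χ.S (yc K q.1 q.2) hne
  unfold tm aI Qx
  rw [h1, h2, h3, map_mul, h4', h5, ← h6, ← h7]
  ring

end

end Pool.Agent.H47.GLA
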