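import Pool.Agent.H47.GLA.UZ3

/-!
# Board gla_modules, module UZ, part 4: the integral of the theta series of one class
-/

set_option autoImplicit false

open NumberField NumberField.InfinitePlace NumberField.Units
  NumberField.Units.dirichletUnitTheorem MeasureTheory Set Filter Complex
open scoped nonZeroDivisors ENNReal

namespace Pool.Agent.H47.GLA

open Pool.Agent.H25.HK Pool.Agent.H23.LB
open Pool.Agent.H28.RC hiding cf gS T_H1
open Pool.Agent.H19.RC (Par sumM)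

section
open scoped Classical

variable {K : Type} [Field K] [NumberField K] {f : Ideal (𝓞 K)}

theorem hc_le (χ : HC K f) (J : Ideal (𝓞 K)) : ‖χ.ψ J‖ ≤ 1 := by
  by_cases h0 : J = ⊥
  · rw [h0, χ.map_bot, norm_zero]
    exact zero_le_one
  · by_cases h : J ⊔ f = ⊤
    · exact (χ.norm_one J h0 h).le
    · rw [χ.eq_zero J h, norm_zero]
      exact zero_le_one

theorem aI_le (hPU : T_PU) (χ : HC K f) (M : FI K) (X : {I : Ideal (𝓞 K) // Pri K M I} → K)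
    (φ : ℝ) (J : {I : Ideal (𝓞 K) // Pri K M I}) : ‖aI χ M X φ J‖ ≤ 1 := by
  unfold aI
  rw [norm_mul, norm_mul, RCLike.norm_conj, (hPU K).2.2.2.2.2.2 χ.ν (X J), mul_one]
  have h1 : ((φ : ℂ) * I) * χ.S.card / 2 = ((φ * χ.S.card / 2 : ℝ) : ℂ) * I := by
    push_cast
    ring
  rw [h1, Complex.norm_exp_ofReal_mul_I, one_mul]
  exact hc_le χ J.1

theorem hasSum_tm (hTH : T_TH) (hCF : T_CF) (χ : HC K f) (M : FI K) (hf : f ≠ ⊥) (hM : M ≠ 0)
    (X : {I : Ideal (𝓞 K) // Pri K M I} → K) (hP : Par M X) (φ : ℝ) (hφ : |φ| < Real.pi / 2)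
    (y : InfinitePlace K → ℝ) :
    HasSum (fun p : {I : Ideal (𝓞 K) // Pri K M I} × (𝓞 K)ˣ => tm χ M φ y ((p.2 : K) * X p.1))
      (tz K χ.S M (cf χ M) (φ * I) y - tm χ M φ y 0) :=
  sumM (E := ℂ) (tm χ M φ y) hP.X0 hP.XM hP.un (tm_summable hTH hCF χ M hf hM φ hφ y).hasSum

/-- the integral of the theta series of one class -/
theorem class_int (hTH : T_TH) (hSM : T_SMc) (hYC : T_YC) (hUI : T_UI) (hFD : T_FD)
    (hUN : T_UN) (hID : T_ID) (hGI : T_GIc) (hGZ : T_GZ) (hCF : T_CF) (hPU : T_PU)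
    (χ : HC K f) (M : FI K) (hf : f ≠ ⊥) (hM : M ≠ 0)
    (X : {I : Ideal (𝓞 K) // Pri K M I} → K) (hP : Par M X) (φ : ℝ) (hφ : |φ| < Real.pi / 2)
    (s : ℂ) (hs : 0 < s.re)
    (hsum : Summable fun J : {I : Ideal (𝓞 K) // Pri K M I} =>
      ‖(((|Algebra.norm ℚ (X J)| : ℚ) : ℝ) : ℂ) ^ (-(s.re : ℂ))‖) :
    ∫ z in Fd K, ec K χ.ν z * ∫ τ : ℝ, cexp (s * τ) *
      (tz K χ.S M (cf χ M) (φ * I) (yc K τ z) - tm χ M φ (yc K τ z) 0) =
    (torsionOrder K : ℂ) * ∑' J : {I : Ideal (𝓞 K) // Pri K M I},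
      aI χ M X φ J * ∫ p, Qx K χ.S χ.ν φ s (X J) p := by
  have hζ : |((φ : ℂ) * I).im| < Real.pi / 2 := by simpa using hφ
  have hco : Countable ({I : Ideal (𝓞 K) // Pri K M I} × (𝓞 K)ˣ) := hP.countable hSM hM
  have hcu : ∀ J : {I : Ideal (𝓞 K) // Pri K M I}, Countable (𝓞 K)ˣ := fun J =>
    Function.Injective.countable (f := fun u : (𝓞 K)ˣ =>
      ((J, u) : {I : Ideal (𝓞 K) // Pri K M I} × (𝓞 K)ˣ)) fun u v h => (Prod.ext_iff.1 h).2
  -- the terms and the sum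
  set F : ({I : Ideal (𝓞 K) // Pri K M I} × (𝓞 K)ˣ) → ℝ × logSpace K → ℂ := fun p q =>
    aI χ M X φ p.1 * Qx K χ.S χ.ν φ s (X p.1) (q.1, q.2 + lg K p.2) with hF
  set g : ℝ × logSpace K → ℂ := fun q => cexp (s * q.1) * ec K χ.ν q.2 *
    (tz K χ.S M (cf χ M) (φ * I) (yc K q.1 q.2) - tm χ M φ (yc K q.1 q.2) 0) with hg
  have hQc : ∀ x : K, Continuous (Qx K χ.S χ.ν φ s x) := Qx_cont K hYC hPU χ.S χ.ν φ s
  have hQi : ∀ x : K, x ≠ 0 → Integrable (Qx K χ.S χ.ν φ s x) := fun x hx =>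
    (hGZ K χ.S x χ.ν φ s hx χ.norm_zero hφ hs).1
  have hFc : ∀ p, Continuous (F p) := by
    intro p
    have := hQc (X p.1)
    simp only [hF]
    fun_prop
  have hHS : ∀ q, HasSum (fun p => F p q) (g q) := by
    intro q
    have h1 := (hasSum_tm hTH hCF χ M hf hM X hP φ hφ (yc K q.1 q.2)).mul_left
      (cexp (s * q.1) * ec K χ.ν q.2)
    refine h1.congr_fun fun p => ?_
    exact (tm_unit hYC hUI hID hCF hPU χ M hf hM X hP φ s p q).symm
  have hgc : Continuous g := by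
    have h1 := (hYC K).2.2.2.2.1
    have h2 := Pool.Agent.H74.GLA.tz_cont hTH χ.S M hM (cf χ M) (φ * I) hζ
      (hCF K f χ M hf hM).2.1
    have h3 : Continuous (fun q : ℝ × logSpace K =>
        tz K χ.S M (cf χ M) (φ * I) (yc K q.1 q.2)) := h2.comp h1
    have h4 : Continuous (fun q : ℝ × logSpace K => ec K χ.ν q.2) :=
      ((hPU K).2.2.2.2.1 χ.ν).1.comp continuous_snd
    simp only [hg, tm_zero]
    fun_prop
  -- absolute convergence
  obtain ⟨C, hC0, hC⟩ := Qx_bound K hYC hPU hGI χ.S χ.ν φ hφ s hs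
  have hFn : ∀ J : {I : Ideal (𝓞 K) // Pri K M I},
      ∑' u : (𝓞 K)ˣ, ∫⁻ q, ‖F (J, u) q‖ₑ ∂(mu K) ≤
      (torsionOrder K : ℝ≥0∞) * ENNReal.ofReal
        (C * ‖(((|Algebra.norm ℚ (X J)| : ℚ) : ℝ) : ℂ) ^ (-(s.re : ℂ))‖) := by
    intro J
    have hcJ := hcu J
    have h1 := unf_norm K hFD hUN (Qx K χ.S χ.ν φ s (X J)) (hQc _)
    have h2 : ∀ u : (𝓞 K)ˣ, ∫⁻ q, ‖F (J, u) q‖ₑ ∂(mu K) ≤
        ∫⁻ q, ‖Qx K χ.S χ.ν φ s (X J) (q.1, q.2 + lg K u)‖ₑ ∂(mu K) := by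
      intro u
      refine lintegral_mono fun q => ?_
      simp only [hF]
      rw [← ofReal_norm, ← ofReal_norm]
      refine ENNReal.ofReal_le_ofReal ?_
      rw [norm_mul]
      exact mul_le_of_le_one_left (norm_nonneg _) (aI_le hPU χ M X φ J)
    calc ∑' u : (𝓞 K)ˣ, ∫⁻ q, ‖F (J, u) q‖ₑ ∂(mu K)
        ≤ ∑' u : (𝓞 K)ˣ, ∫⁻ q, ‖Qx K χ.S χ.ν φ s (X J) (q.1, q.2 + lg K u)‖ₑ ∂(mu K) :=
          ENNReal.tsum_le_tsum h2
      _ = (torsionOrder K : ℝ≥0∞) * ∫⁻ p, ‖Qx K χ.S χ.ν φ s (X J) p‖ₑ := h1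
      _ ≤ _ := mul_le_mul_right (hC (X J) (hP.X0 J)) _
  have htot : ∑' p : {I : Ideal (𝓞 K) // Pri K M I} × (𝓞 K)ˣ, ∫⁻ q, ‖F p q‖ₑ ∂(mu K) ≠ ∞ := by
    rw [ENNReal.tsum_prod']
    refine ne_top_of_le_ne_top ?_ (ENNReal.tsum_le_tsum hFn)
    rw [ENNReal.tsum_mul_left]
    exact ENNReal.mul_ne_top (ENNReal.natCast_ne_top _) (hsum.mul_left C).tsum_ofReal_ne_top
  have hsR := ENNReal.summable_toReal htot
  have hsI : Summable (fun p : {I : Ideal (𝓞 K) // Pri K M I} × (𝓞 K)ˣ =>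
      ∫ q, F p q ∂(mu K)) := by
    refine Summable.of_norm_bounded hsR fun p => ?_
    refine (norm_integral_le_integral_norm (F p)).trans (le_of_eq ?_)
    rw [integral_norm_eq_lintegral_enorm (hFc p).aestronglyMeasurable]
  -- integrability of the sum
  have hgi : Integrable g (mu K) := by
    refine ⟨hgc.aestronglyMeasurable, ?_⟩
    have h1 : ∫⁻ q, ‖g q‖ₑ ∂(mu K) ≤
        ∫⁻ q, ∑' p : {I : Ideal (𝓞 K) // Pri K M I} × (𝓞 K)ˣ, ‖F p q‖ₑ ∂(mu K) := by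
      refine lintegral_mono fun q => ?_
      simp only
      rw [← (hHS q).tsum_eq]
      exact enorm_tsum_le_tsum_enorm
    refine lt_of_le_of_lt h1 ?_
    rw [lintegral_tsum fun p => (hFc p).measurable.enorm.aemeasurable]
    exact lt_top_iff_ne_top.2 htot
  have hint : ∫ q, g q ∂(mu K) = ∑' p : {I : Ideal (𝓞 K) // Pri K M I} × (𝓞 K)ˣ,
      ∫ q, F p q ∂(mu K) := by
    have h1 : ∫ q, g q ∂(mu K) =
        ∫ q, ∑' p : {I : Ideal (𝓞 K) // Pri K M I} × (𝓞 K)ˣ, F p q ∂(mu K) :=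
      integral_congr_ae (ae_of_all _ fun q => (hHS q).tsum_eq.symm)
    rw [h1, integral_tsum (fun p => (hFc p).aestronglyMeasurable) htot]
  have hleft : ∫ z in Fd K, ec K χ.ν z * ∫ τ : ℝ, cexp (s * τ) *
      (tz K χ.S M (cf χ M) (φ * I) (yc K τ z) - tm χ M φ (yc K τ z) 0) = ∫ q, g q ∂(mu K) := by
    have h1 : Integrable g ((volume : Measure ℝ).prod (volume.restrict (Fd K))) := hgi
    unfold mu
    rw [integral_prod_symm _ h1]
    refine integral_congr_ae (ae_of_all _ fun z => ?_)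
    simp only [hg]
    rw [← integral_const_mul]
    refine integral_congr_ae (ae_of_all _ fun τ => ?_)
    simp only
    ring
  rw [hleft, hint, hsI.tsum_prod, ← tsum_mul_left]
  refine tsum_congr fun J => ?_
  have hcJ := hcu J
  obtain ⟨-, -, h3⟩ := unf_int K hFD hUN (Qx K χ.S χ.ν φ s (X J)) (hQc _) (hQi _ (hP.X0 J))
  have h4 : ∀ u : (𝓞 K)ˣ, ∫ q, F (J, u) q ∂(mu K) =
      aI χ M X φ J * ∫ q, Qx K χ.S χ.ν φ s (X J) (q.1, q.2 + lg K u) ∂(mu K) := by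
    intro u
    rw [← integral_const_mul]
  simp only [h4]
  rw [tsum_mul_left, h3]
  ring

end

end Pool.Agent.H47.GLA
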